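import Pool.Agent.H61.UN.Ms
import Pool.Agent.H61.UN.Mt
import Pool.Agent.H62.AU.Df

/-!
# [H79 AU GS] Mean of `gf (dd h)^M` over boxes of intervals, uniformly

`gf_shortU`: for `H' ≤ H`, `(log hi)^κ ≤ H`, `t + H' ≤ hi`, `hi ≥ 3`: `∑_{v ∈ (t, t+H']} gf(v)^K ≤ C H`, `C` and `κ` depend on
`K` only. `mean_boxU`: the mean of `gf (dd h)^M` over injective `h` in a box of such intervals is at most `C`.
-/

set_option autoImplicit false

namespace Pool.Agent.H79.AU

open Finset Filter Pool.Agent.H61.UN Pool.Agent.H75.AP Pool.Agent.H62.AU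

private theorem bern (K : ℕ) (x : ℝ) (hx0 : 0 ≤ x) (hx1 : x ≤ 1) :
    (1 + x) ^ K ≤ 1 + (2 ^ K - 1) * x := by
  induction K with
  | zero => simp
  | succ K ih =>
    have h1 : (1 : ℝ) ≤ 2 ^ K := one_le_pow₀ (by norm_num)
    have h2 : x * x ≤ x := by nlinarith
    calc (1 + x) ^ (K + 1) = (1 + x) ^ K * (1 + x) := pow_succ _ _
      _ ≤ (1 + (2 ^ K - 1) * x) * (1 + x) := mul_le_mul_of_nonneg_right ih (by linarith)
      _ = 1 + 2 ^ K * x + (2 ^ K - 1) * (x * x) := by ring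
      _ ≤ 1 + 2 ^ K * x + (2 ^ K - 1) * x := by
          have := mul_le_mul_of_nonneg_left h2 (by linarith : (0 : ℝ) ≤ 2 ^ K - 1)
          linarith
      _ = 1 + (2 ^ (K + 1) - 1) * x := by rw [pow_succ]; ring

private theorem gf_pow_le (K v : ℕ) :
    gf v ^ K ≤ ∏ l ∈ v.primeFactors, (1 + 2 ^ K / (l : ℝ)) := by
  unfold gf
  rw [← prod_pow]
  apply Finset.prod_le_prod
  · intro l _
    positivity
  · intro l hl
    have hl1 : (1 : ℝ) ≤ l := by
      exact_mod_cast (Nat.prime_of_mem_primeFactors hl).one_lt.le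
    have h1 := bern K (1 / (l : ℝ)) (by positivity) (by rw [div_le_one (by linarith)]; exact hl1)
    have h2 : (2 ^ K - 1) * (1 / (l : ℝ)) ≤ 2 ^ K / (l : ℝ) := by
      rw [mul_one_div]
      apply div_le_div_of_nonneg_right _ (by linarith)
      linarith
    linarith

private theorem inv_sq (V : ℕ) : ∑ p ∈ Icc 1 V, 1 / (p : ℝ) ^ 2 ≤ 2 := by
  have h : ∀ V : ℕ, 1 ≤ V → ∑ p ∈ Icc 1 V, 1 / (p : ℝ) ^ 2 ≤ 2 - 1 / (V : ℝ) := by
    intro V hV
    induction V, hV using Nat.le_induction with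
    | base => norm_num
    | succ V hV ih =>
      rw [Finset.sum_Icc_succ_top (by omega)]
      have hV1 : (1 : ℝ) ≤ V := by exact_mod_cast hV
      have h1 : 1 / ((V + 1 : ℕ) : ℝ) ^ 2 ≤ 1 / (V : ℝ) - 1 / ((V + 1 : ℕ) : ℝ) := by
        push_cast
        rw [div_sub_div _ _ (by positivity) (by positivity), div_le_div_iff₀ (by positivity)
          (by positivity)]
        nlinarith
      linarith
  rcases Nat.eq_zero_or_pos V with rfl | hV
  · simp
  · have h1 := h V hV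
    have : 0 ≤ 1 / (V : ℝ) := by positivity
    linarith

/-- multiples of `d` in a short interval -/
private theorem card_mul (t H d : ℕ) (hd : 0 < d) :
    (((Ioc t (t + H)).filter (fun v => d ∣ v)).card : ℝ) ≤ (H : ℝ) / d + 1 := by
  have h1 : ((Ioc 0 (t + H)).filter (fun v => d ∣ v)).card = (t + H) / d :=
    Nat.Ioc_filter_dvd_card_eq_div _ _
  have h2 : ((Ioc 0 t).filter (fun v => d ∣ v)).card = t / d :=
    Nat.Ioc_filter_dvd_card_eq_div _ _
  have h3 : ((Ioc 0 (t + H)).filter (fun v => d ∣ v)) =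
      ((Ioc 0 t).filter (fun v => d ∣ v)) ∪ ((Ioc t (t + H)).filter (fun v => d ∣ v)) := by
    rw [← filter_union]
    congr 1
    ext y
    simp only [mem_union, mem_Ioc]
    omega
  have h4 : Disjoint ((Ioc 0 t).filter (fun v => d ∣ v)) ((Ioc t (t + H)).filter (fun v => d ∣ v)) := by
    rw [disjoint_left]
    intro y hy hy'
    simp only [mem_filter, mem_Ioc] at hy hy'
    omega
  have h5 := card_union_of_disjoint h4
  rw [← h3, h1, h2] at h5
  have hd0 : (0 : ℝ) < d := by exact_mod_cast hd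
  have h6 : (((t + H) / d : ℕ) : ℝ) ≤ ((t : ℝ) + H) / d := by
    have := @Nat.cast_div_le ℝ _ _ _ (t + H) d
    push_cast at this
    exact this
  have h7 : (t : ℝ) / d < ((t / d : ℕ) : ℝ) + 1 := by
    rw [div_lt_iff₀ hd0]
    have h8 : t < (t / d + 1) * d := by
      have := Nat.div_add_mod t d
      have h9 := Nat.mod_lt t hd
      nlinarith
    exact_mod_cast h8
  have h8 : (((t + H) / d : ℕ) : ℝ) = ((t / d : ℕ) : ℝ) +
      (((Ioc t (t + H)).filter (fun v => d ∣ v)).card : ℝ) := by exact_mod_cast h5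
  rw [add_div] at h6
  linarith

/-- sum over subsets -/
private theorem gf_pow_sum (K V v : ℕ) (hv : 1 ≤ v) (hvV : v ≤ V) :
    gf v ^ K ≤ ∑ t ∈ ((Icc 1 V).filter Nat.Prime).powerset,
      if t ⊆ v.primeFactors then ∏ l ∈ t, (2 ^ K / (l : ℝ)) else 0 := by
  classical
  refine (gf_pow_le K v).trans (le_of_eq ?_)
  rw [Finset.prod_one_add, ← sum_filter]
  apply sum_congr _ (fun _ _ => rfl)
  ext t
  rw [mem_powerset, mem_filter, mem_powerset]
  constructor
  · intro ht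
    refine ⟨fun l hl => ?_, ht⟩
    have h2 := ht hl
    have h3 := Nat.prime_of_mem_primeFactors h2
    rw [mem_filter, mem_Icc]
    exact ⟨⟨h3.one_lt.le, (Nat.le_of_dvd hv (Nat.dvd_of_mem_primeFactors h2)).trans hvV⟩, h3⟩
  · exact fun h => h.2

private theorem gf_short0 (K t H : ℕ) :
    ∑ v ∈ Ioc t (t + H), gf v ^ K ≤ Real.exp (2 * 2 ^ K) * H +
      ∏ l ∈ (Icc 1 (t + H)).filter Nat.Prime, (1 + 2 ^ K / (l : ℝ)) := by
  classical
  obtain ⟨Pr, hPr⟩ : ∃ Pr : Finset ℕ, Pr = (Icc 1 (t + H)).filter Nat.Prime := ⟨_, rfl⟩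
  have h1 : ∀ v ∈ Ioc t (t + H), gf v ^ K ≤
      ∑ S ∈ Pr.powerset, if S ⊆ v.primeFactors then ∏ l ∈ S, (2 ^ K / (l : ℝ)) else 0 := by
    intro v hv
    rw [mem_Ioc] at hv
    rw [hPr]
    exact gf_pow_sum K (t + H) v (by omega) hv.2
  have h2 : ∀ S ∈ Pr.powerset, ∑ v ∈ Ioc t (t + H),
      (if S ⊆ v.primeFactors then ∏ l ∈ S, (2 ^ K / (l : ℝ)) else 0) ≤
      H * ∏ l ∈ S, (2 ^ K / (l : ℝ) ^ 2) + ∏ l ∈ S, (2 ^ K / (l : ℝ)) := by
    intro S hS
    rw [mem_powerset] at hS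
    rw [← sum_filter, sum_const, nsmul_eq_mul]
    have htp : ∀ l ∈ S, l.Prime := fun l hl => by
      have := hS hl
      rw [hPr, mem_filter] at this
      exact this.2
    have h0 : 0 < ∏ l ∈ S, l := prod_pos fun l hl => (htp l hl).pos
    have h3 : (((Ioc t (t + H)).filter (fun v => S ⊆ v.primeFactors)).card : ℝ) ≤
        H / ∏ l ∈ S, (l : ℝ) + 1 := by
      have h4 := card_mul t H (∏ l ∈ S, l) h0
      rw [Nat.cast_prod] at h4
      refine le_trans ?_ h4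
      have h5 : ((Ioc t (t + H)).filter (fun v => S ⊆ v.primeFactors)).card ≤
          ((Ioc t (t + H)).filter (fun v => (∏ l ∈ S, l) ∣ v)).card := by
        apply card_le_card
        intro v hv
        rw [mem_filter, mem_Ioc] at hv
        rw [mem_filter, mem_Ioc]
        exact ⟨hv.1, (prod_dvd_prod_of_subset _ _ _ hv.2).trans (Nat.prod_primeFactors_dvd v)⟩
      exact_mod_cast h5
    have h6 : 0 ≤ ∏ l ∈ S, (2 ^ K / (l : ℝ)) := prod_nonneg fun l _ => by positivity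
    refine (mul_le_mul_of_nonneg_right h3 h6).trans (le_of_eq ?_)
    rw [add_mul, one_mul, div_mul_eq_mul_div, mul_div_assoc, ← prod_div_distrib]
    congr 2
    apply prod_congr rfl
    intro l _
    rw [div_div, sq]
  rw [← hPr]
  calc ∑ v ∈ Ioc t (t + H), gf v ^ K ≤ ∑ v ∈ Ioc t (t + H), ∑ S ∈ Pr.powerset,
        (if S ⊆ v.primeFactors then ∏ l ∈ S, (2 ^ K / (l : ℝ)) else 0) := sum_le_sum h1
    _ = ∑ S ∈ Pr.powerset, ∑ v ∈ Ioc t (t + H),
        (if S ⊆ v.primeFactors then ∏ l ∈ S, (2 ^ K / (l : ℝ)) else 0) := sum_comm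
    _ ≤ ∑ S ∈ Pr.powerset, ((H : ℝ) * ∏ l ∈ S, (2 ^ K / (l : ℝ) ^ 2) +
        ∏ l ∈ S, (2 ^ K / (l : ℝ))) := sum_le_sum h2
    _ = (H : ℝ) * ∏ l ∈ Pr, (1 + 2 ^ K / (l : ℝ) ^ 2) + ∏ l ∈ Pr, (1 + 2 ^ K / (l : ℝ)) := by
        rw [sum_add_distrib, ← mul_sum, Finset.prod_one_add, Finset.prod_one_add]
    _ ≤ Real.exp (2 * 2 ^ K) * H + ∏ l ∈ Pr, (1 + 2 ^ K / (l : ℝ)) := by
        rw [mul_comm (Real.exp _)]
        refine add_le_add ?_ le_rfl
        apply mul_le_mul_of_nonneg_left _ (Nat.cast_nonneg _)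
        calc ∏ p ∈ Pr, (1 + 2 ^ K / (p : ℝ) ^ 2)
            ≤ ∏ p ∈ Pr, Real.exp (2 ^ K / (p : ℝ) ^ 2) := by
              apply Finset.prod_le_prod
              · intro p _
                positivity
              · intro p _
                rw [add_comm]
                exact Real.add_one_le_exp _
          _ = Real.exp (∑ p ∈ Pr, 2 ^ K / (p : ℝ) ^ 2) := by rw [Real.exp_sum]
          _ ≤ Real.exp (2 * 2 ^ K) := by
              apply Real.exp_le_exp.2
              calc ∑ p ∈ Pr, (2 : ℝ) ^ K / (p : ℝ) ^ 2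
                  ≤ ∑ p ∈ Icc 1 (t + H), (2 : ℝ) ^ K / (p : ℝ) ^ 2 := by
                    rw [hPr]
                    exact sum_le_sum_of_subset_of_nonneg (filter_subset _ _) fun p _ _ => by positivity
                _ = 2 ^ K * ∑ p ∈ Icc 1 (t + H), 1 / (p : ℝ) ^ 2 := by
                    rw [mul_sum]
                    apply sum_congr rfl
                    intro p _
                    ring
                _ ≤ 2 ^ K * 2 := mul_le_mul_of_nonneg_left (inv_sq (t + H)) (by positivity)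
                _ = 2 * 2 ^ K := by ring

/-- the error term -/
private theorem err_le (K : ℕ) : ∃ C : ℝ, 0 < C ∧ ∀ hi : ℝ, 3 ≤ hi → ∀ V : ℕ, (V : ℝ) ≤ hi →
    ∏ l ∈ (Icc 1 V).filter Nat.Prime, (1 + 2 ^ K / (l : ℝ)) ≤ C * Real.log hi ^ (2 ^ K : ℕ) := by
  obtain ⟨C2, hC2, hm⟩ := mertens_upper
  obtain ⟨n, hn⟩ : ∃ n : ℕ, n = 2 ^ K := ⟨_, rfl⟩
  refine ⟨Real.exp (C2 * n), Real.exp_pos _, fun hi hhi V hV => ?_⟩
  have h1 := hm hi hhi
  have hll : 0 < Real.log hi := Real.log_pos (by linarith)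
  have h2 : ∏ l ∈ (Icc 1 V).filter Nat.Prime, (1 + 2 ^ K / (l : ℝ)) ≤
      Real.exp (n * ∑ l ∈ (Icc 1 V).filter Nat.Prime, 1 / (l : ℝ)) := by
    rw [mul_sum, Real.exp_sum]
    apply Finset.prod_le_prod
    · intro l _
      positivity
    · intro l _
      have h3 : (n : ℝ) * (1 / (l : ℝ)) = 2 ^ K / (l : ℝ) := by
        rw [hn]
        push_cast
        ring
      rw [h3, add_comm]
      exact Real.add_one_le_exp _
  have h3 : ∑ l ∈ (Icc 1 V).filter Nat.Prime, 1 / (l : ℝ) ≤ ∑ p ∈ PI 0 hi, 1 / (p : ℝ) := by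
    apply sum_le_sum_of_subset_of_nonneg
    · intro p hp
      rw [mem_filter, mem_Icc] at hp
      unfold PI
      rw [mem_filter, mem_range]
      refine ⟨Nat.lt_succ_of_le (Nat.le_floor ?_), hp.2, by exact_mod_cast hp.2.pos⟩
      have : (p : ℝ) ≤ V := by exact_mod_cast hp.1.2
      linarith
    · intro p _ _
      positivity
  refine h2.trans ?_
  have h4 : (n : ℝ) * ∑ l ∈ (Icc 1 V).filter Nat.Prime, 1 / (l : ℝ) ≤
      n * (Real.log (Real.log hi) + C2) :=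
    mul_le_mul_of_nonneg_left (h3.trans h1) (Nat.cast_nonneg _)
  refine (Real.exp_le_exp.2 h4).trans (le_of_eq ?_)
  rw [mul_add, Real.exp_add, Real.exp_nat_mul, Real.exp_log hll, mul_comm (n : ℝ) C2, hn]
  ring

/-- moments of `gf` over short intervals -/
theorem gf_shortU (K : ℕ) : ∃ C : ℝ, 0 < C ∧ ∀ lo hi : ℝ, 3 ≤ hi → Real.log hi ^ (2 ^ K : ℕ) ≤ lo →
    ∀ t H' : ℕ, ∀ H : ℝ, (H' : ℝ) ≤ H → lo ≤ H → ((t + H' : ℕ) : ℝ) ≤ hi →
    ∑ v ∈ Ioc t (t + H'), gf v ^ K ≤ C * H := by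
  obtain ⟨C, hC, he⟩ := err_le K
  refine ⟨Real.exp (2 * 2 ^ K) + C, by positivity, ?_⟩
  intro lo hi hhi hlo t H' H hH' hH ht
  have h1 := gf_short0 K t H'
  have h2 := he hi hhi (t + H') ht
  have h3 : Real.exp (2 * 2 ^ K) * H' ≤ Real.exp (2 * 2 ^ K) * H :=
    mul_le_mul_of_nonneg_left hH' (Real.exp_pos _).le
  have h4 : C * Real.log hi ^ (2 ^ K : ℕ) ≤ C * H := mul_le_mul_of_nonneg_left (hlo.trans hH) hC.le
  linarith

private theorem ms_prod {α : Type} (s : Finset α) (y : α → ℝ) (hy : ∀ i ∈ s, 1 ≤ y i) :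
    ∏ i ∈ s, y i ≤ 1 + ∑ i ∈ s, (y i) ^ s.card := by
  rcases s.eq_empty_or_nonempty with rfl | hne
  · simp
  · obtain ⟨i0, hi0, hmax⟩ := exists_max_image s y hne
    have h1 : ∏ i ∈ s, y i ≤ ∏ _i ∈ s, y i0 :=
      Finset.prod_le_prod (fun i hi => zero_le_one.trans (hy i hi)) (fun i hi => hmax i hi)
    rw [prod_const] at h1
    have h2 : (y i0) ^ s.card ≤ ∑ i ∈ s, (y i) ^ s.card :=
      single_le_sum (f := fun i => (y i) ^ s.card)
        (fun i hi => pow_nonneg (zero_le_one.trans (hy i hi)) _) hi0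
    linarith

/-- one pair: `a` runs over an interval, `b` is fixed -/
private theorem pair_short {K : ℕ} {C lo hi : ℝ}
    (hC : ∀ t H' : ℕ, ∀ H : ℝ, (H' : ℝ) ≤ H → lo ≤ H →
      ((t + H' : ℕ) : ℝ) ≤ hi → ∑ v ∈ Ioc t (t + H'), gf v ^ K ≤ C * H)
    {t H b : ℕ} (hH : lo ≤ ((H + 1 : ℕ) : ℝ)) (ht : ((t + H : ℕ) : ℝ) ≤ hi)
    (hb : (b : ℝ) ≤ hi) :
    ∑ a ∈ Icc t (t + H), (if a = b then (0 : ℝ) else gf ((a : ℤ) - b).natAbs ^ K) ≤
      2 * (C * ((H + 1 : ℕ) : ℝ)) := by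
  have h0 : ∀ v : ℕ, (0 : ℝ) ≤ gf v ^ K := fun v => pow_nonneg (zero_le_one.trans (gf_one_le v)) _
  have h1 : ∀ a ∈ Icc t (t + H), (if a = b then (0 : ℝ) else gf ((a : ℤ) - b).natAbs ^ K) =
      (if a < b then gf (b - a) ^ K else 0) + (if b < a then gf (a - b) ^ K else 0) := by
    intro a _
    rcases lt_trichotomy a b with h | h | h
    · rw [if_neg (by omega), if_pos h, if_neg (by omega), add_zero]
      congr 2
      omega
    · rw [if_pos h, if_neg (by omega), if_neg (by omega), add_zero]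
    · rw [if_neg (by omega), if_neg (by omega), if_pos h, zero_add]
      congr 2
      omega
  rw [sum_congr rfl h1, sum_add_distrib, ← sum_filter, ← sum_filter]
  have h2 : ∑ a ∈ (Icc t (t + H)).filter (fun a => a < b), gf (b - a) ^ K ≤ C * ((H + 1 : ℕ) : ℝ) := by
    have h3 : Set.InjOn (fun a : ℕ => b - a) ((Icc t (t + H)).filter (fun a => a < b) : Finset ℕ) := by
      intro x hx y hy hxy
      rw [mem_coe, mem_filter] at hx hy
      have h4 : b - x = b - y := hxy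
      omega
    have h4 := sum_image (f := fun v : ℕ => gf v ^ K) h3
    rw [← h4]
    obtain ⟨t1, ht1⟩ : ∃ t1, t1 = b - (t + H) - 1 := ⟨_, rfl⟩
    obtain ⟨H1, hH1⟩ : ∃ H1, H1 = b - t - t1 := ⟨_, rfl⟩
    have h5 : (H1 : ℝ) ≤ ((H + 1 : ℕ) : ℝ) := by
      have : H1 ≤ H + 1 := by omega
      exact_mod_cast this
    have h6 : ((t1 + H1 : ℕ) : ℝ) ≤ hi := by
      have : t1 + H1 ≤ b := by omega
      have h7 : ((t1 + H1 : ℕ) : ℝ) ≤ b := by exact_mod_cast this
      linarith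
    refine le_trans ?_ (hC t1 H1 _ h5 hH h6)
    apply sum_le_sum_of_subset_of_nonneg
    · intro v hv
      rw [mem_image] at hv
      obtain ⟨a, ha, rfl⟩ := hv
      rw [mem_filter, mem_Icc] at ha
      rw [mem_Ioc]
      omega
    · exact fun v _ _ => h0 v
  have h3 : ∑ a ∈ (Icc t (t + H)).filter (fun a => b < a), gf (a - b) ^ K ≤ C * ((H + 1 : ℕ) : ℝ) := by
    have h3 : Set.InjOn (fun a : ℕ => a - b) ((Icc t (t + H)).filter (fun a => b < a) : Finset ℕ) := by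
      intro x hx y hy hxy
      rw [mem_coe, mem_filter] at hx hy
      have h4 : x - b = y - b := hxy
      omega
    have h4 := sum_image (f := fun v : ℕ => gf v ^ K) h3
    rw [← h4]
    obtain ⟨t1, ht1⟩ : ∃ t1, t1 = t - b - 1 := ⟨_, rfl⟩
    obtain ⟨H1, hH1⟩ : ∃ H1, H1 = t + H - b - t1 := ⟨_, rfl⟩
    have h5 : (H1 : ℝ) ≤ ((H + 1 : ℕ) : ℝ) := by
      have : H1 ≤ H + 1 := by omega
      exact_mod_cast this
    have h6 : ((t1 + H1 : ℕ) : ℝ) ≤ hi := by
      have : t1 + H1 ≤ t + H := by omega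
      have h7 : ((t1 + H1 : ℕ) : ℝ) ≤ ((t + H : ℕ) : ℝ) := by exact_mod_cast this
      linarith
    refine le_trans ?_ (hC t1 H1 _ h5 hH h6)
    apply sum_le_sum_of_subset_of_nonneg
    · intro v hv
      rw [mem_image] at hv
      obtain ⟨a, ha, rfl⟩ := hv
      rw [mem_filter, mem_Icc] at ha
      rw [mem_Ioc]
      omega
    · exact fun v _ _ => h0 v
  linarith

open Classical in
private theorem pair_box (ι : Type) [Fintype ι] [DecidableEq ι] {K : ℕ} {C lo hi : ℝ} (hC0 : 0 ≤ C)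
    (hC : ∀ t H' : ℕ, ∀ H : ℝ, (H' : ℝ) ≤ H → lo ≤ H →
      ((t + H' : ℕ) : ℝ) ≤ hi → ∑ v ∈ Ioc t (t + H'), gf v ^ K ≤ C * H)
    (I : ι → Finset ℕ) (hI : BoxU lo hi I) (i j : ι) (hij : i ≠ j) :
    ∑ h ∈ (Fintype.piFinset I).filter Function.Injective, gf ((h i : ℤ) - h j).natAbs ^ K ≤
      2 * C * ∏ k, ((I k).card : ℝ) := by
  have h0 : ∀ v : ℕ, (0 : ℝ) ≤ gf v ^ K := fun v => pow_nonneg (zero_le_one.trans (gf_one_le v)) _
  obtain ⟨F, hF⟩ : ∃ F : ℕ × ({k : ι // k ≠ i} → ℕ) → ℝ, F = fun p =>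
      if p.1 = p.2 ⟨j, hij.symm⟩ then 0 else gf ((p.1 : ℤ) - p.2 ⟨j, hij.symm⟩).natAbs ^ K := ⟨_, rfl⟩
  have h1 : ∑ h ∈ (Fintype.piFinset I).filter Function.Injective, gf ((h i : ℤ) - h j).natAbs ^ K =
      ∑ p ∈ ((Fintype.piFinset I).filter Function.Injective).map (Equiv.funSplitAt i ℕ).toEmbedding,
        F p := by
    rw [sum_map]
    refine sum_congr rfl fun h hh => ?_
    rw [mem_filter] at hh
    rw [hF]
    change _ = (if h i = h j then (0 : ℝ) else gf ((h i : ℤ) - h j).natAbs ^ K)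
    rw [if_neg (fun hc => hij (hh.2 hc))]
  have h2 : ∑ p ∈ ((Fintype.piFinset I).filter Function.Injective).map
      (Equiv.funSplitAt i ℕ).toEmbedding, F p ≤
      ∑ p ∈ I i ×ˢ Fintype.piFinset (fun k : {k : ι // k ≠ i} => I k), F p := by
    apply sum_le_sum_of_subset_of_nonneg
    · intro p hp
      rw [Finset.mem_map] at hp
      obtain ⟨h, hh, rfl⟩ := hp
      rw [mem_filter, Fintype.mem_piFinset] at hh
      rw [mem_product, Fintype.mem_piFinset]
      exact ⟨hh.1 i, fun k => hh.1 k⟩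
    · intro p _ _
      rw [hF]
      change (0 : ℝ) ≤ if _ then _ else _
      split_ifs
      · exact le_rfl
      · exact h0 _
  have h3 : ∑ p ∈ I i ×ˢ Fintype.piFinset (fun k : {k : ι // k ≠ i} => I k), F p ≤
      ∑ _g ∈ Fintype.piFinset (fun k : {k : ι // k ≠ i} => I k), 2 * (C * ((I i).card : ℝ)) := by
    rw [sum_product_right]
    refine sum_le_sum fun g hg => ?_
    rw [Fintype.mem_piFinset] at hg
    have h4 := hg ⟨j, hij.symm⟩
    obtain ⟨t', H', hI', -, hb'⟩ := hI j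
    have h5 : ((g ⟨j, hij.symm⟩ : ℕ) : ℝ) ≤ hi := by
      have h6 : g ⟨j, hij.symm⟩ ∈ I j := h4
      rw [hI', mem_Icc] at h6
      have : ((g ⟨j, hij.symm⟩ : ℕ) : ℝ) ≤ ((t' + H' : ℕ) : ℝ) := by exact_mod_cast h6.2
      linarith
    obtain ⟨t, H, hIi, hH, ht⟩ := hI i
    rw [hF, hIi]
    have h6 : ((Icc t (t + H)).card : ℝ) = ((H + 1 : ℕ) : ℝ) := by
      rw [Nat.card_Icc]
      congr 1
      omega
    rw [h6]
    exact pair_short hC hH ht h5
  have h4 : ∏ k, ((I k).card : ℝ) = ((I i).card : ℝ) * ∏ k : {k : ι // k ≠ i}, ((I k).card : ℝ) :=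
    Fintype.prod_eq_mul_prod_subtype_ne _ i
  rw [sum_const, nsmul_eq_mul, Fintype.card_piFinset, Nat.cast_prod] at h3
  rw [h1, h4]
  refine (h2.trans h3).trans (le_of_eq ?_)
  ring

open Classical in
/-- **the mean of `gf (dd h)^M` over a box** -/
theorem mean_boxU (ι : Type) [Fintype ι] [DecidableEq ι] (M : ℕ) : ∃ (C : ℝ) (κ : ℕ), 0 < C ∧
    ∀ lo hi : ℝ, 3 ≤ hi → Real.log hi ^ κ ≤ lo → ∀ I : ι → Finset ℕ, BoxU lo hi I →
    ∑ h ∈ (Fintype.piFinset I).filter Function.Injective, gf (dd h) ^ M ≤ C * ∏ k, ((I k).card : ℝ) := by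
  obtain ⟨P, hP⟩ : ∃ P : Finset (ι × ι), P = (univ : Finset (ι × ι)).filter (fun q => q.1 ≠ q.2) := ⟨_, rfl⟩
  obtain ⟨C, hC0, hC⟩ := gf_shortU (M * P.card)
  refine ⟨1 + P.card * (2 * C), 2 ^ (M * P.card), by positivity, ?_⟩
  intro lo hi hhi hlo
  replace hC := hC lo hi hhi hlo
  intro I hI
  have h1 : ∀ h ∈ (Fintype.piFinset I).filter Function.Injective,
      gf (dd h) ^ M ≤ 1 + ∑ q ∈ P, gf ((h q.1 : ℤ) - h q.2).natAbs ^ (M * P.card) := by
    intro h _
    have h2 : gf (dd h) ≤ ∏ q ∈ P, gf ((h q.1 : ℤ) - h q.2).natAbs := by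
      unfold dd
      rw [← hP]
      exact gf_prod_le _ _
    have h3 : gf (dd h) ^ M ≤ (∏ q ∈ P, gf ((h q.1 : ℤ) - h q.2).natAbs) ^ M :=
      pow_le_pow_left₀ (zero_le_one.trans (gf_one_le _)) h2 M
    rw [← prod_pow] at h3
    have h4 := ms_prod P (fun q => gf ((h q.1 : ℤ) - h q.2).natAbs ^ M)
      (fun q _ => one_le_pow₀ (gf_one_le _))
    simp only [← pow_mul] at h4
    exact h3.trans h4
  refine (sum_le_sum h1).trans ?_
  rw [sum_add_distrib, sum_const, nsmul_eq_mul, mul_one, sum_comm]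
  have h2 : (((Fintype.piFinset I).filter Function.Injective).card : ℝ) ≤ ∏ k, ((I k).card : ℝ) := by
    have h4 := card_filter_le (Fintype.piFinset I) Function.Injective
    rw [Fintype.card_piFinset] at h4
    exact_mod_cast h4
  have h3 : ∑ q ∈ P, ∑ h ∈ (Fintype.piFinset I).filter Function.Injective,
      gf ((h q.1 : ℤ) - h q.2).natAbs ^ (M * P.card) ≤
      ∑ _q ∈ P, 2 * C * ∏ k, ((I k).card : ℝ) := by
    refine sum_le_sum fun q hq => ?_
    rw [hP, mem_filter] at hq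
    exact pair_box ι hC0.le hC I hI q.1 q.2 hq.2
  rw [sum_const, nsmul_eq_mul] at h3
  have h4 := add_le_add h2 h3
  refine h4.trans (le_of_eq ?_)
  ring

end Pool.Agent.H79.AU
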