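import Pool.Agent.H79.LS.Tb
import Pool.Agent.H79.AU.Gs

/-!
# [H79 AU TB] The rough families in boxes, at the beginning and at the end, uniformly in the intervals

`totalBU`, `headBU`, `tailBU`: for boxes of intervals of length at least `b ≥ (log P) ^ κ` below `P ≥ 3`, the weighted number
of the rough families in the box, over all `N`, over the `N ≤ θ x`, over the `N > T x`.
-/

set_option autoImplicit false

namespace Pool.Agent.H79.AU

open Finset Filter Pool.Agent.H21.MT Pool.Agent.H92.MM Pool.Agent.H61.UN Pool.Agent.H62.AU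

open Classical in
/-- the number of the rough families in a box -/
private noncomputable def bf (ι : Type) [Fintype ι] [DecidableEq ι] (a x : ℝ) (I : ι → Finset ℕ) (N : ℕ) : ℝ :=
  (((Fintype.piFinset I).filter (fun h => Function.Injective h ∧ ∀ i, Rgh (x ^ a) (N + h i))).card : ℝ)

open Classical in
/-- `mom_box`, uniformly -/
private theorem mom_boxU (ι : Type) [Fintype ι] [DecidableEq ι] [Nonempty ι] (a : ℝ) (ha : 0 < a) :
    ∃ (C : ℝ) (κ : ℕ), 0 < C ∧ ∀ᶠ x : ℝ in atTop, ∀ b P : ℝ, 3 ≤ P → Real.log P ^ κ ≤ b → ∀ I : ι → Finset ℕ,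
      BoxU b P I → ∀ Y : ℕ, Real.sqrt x ≤ (Y : ℝ) →
      ∑ N ∈ Ioc 0 Y, bf ι a x I N ≤ C * (∏ k, ((I k).card : ℝ)) / Real.log x ^ Fintype.card ι * Y := by
  obtain ⟨C1, hC1, h1⟩ := rough_count ι a ha
  obtain ⟨C2, κ, hC2, h2⟩ := mean_boxU ι (2 * Fintype.card ι)
  refine ⟨C1 * C2, κ, mul_pos hC1 hC2, ?_⟩
  filter_upwards [h1, eventually_gt_atTop (1 : ℝ)] with x hx hx1 b P hP hb I hI Y hY
  have hx2 := h2 b P hP hb
  have hlog : 0 < Real.log x := Real.log_pos hx1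
  have e1 : ∑ N ∈ Ioc 0 Y, bf ι a x I N =
      ∑ h ∈ (Fintype.piFinset I).filter Function.Injective,
        (((Ioc 0 Y).filter (fun N => ∀ i, Rgh (x ^ a) (N + h i))).card : ℝ) := by
    have e2 : ∀ N ∈ Ioc 0 Y, bf ι a x I N =
        ∑ h ∈ (Fintype.piFinset I).filter Function.Injective,
          if (∀ i, Rgh (x ^ a) (N + h i)) then (1 : ℝ) else 0 := by
      intro N _
      unfold bf
      rw [← filter_filter, sum_boole]
    rw [sum_congr rfl e2, sum_comm]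
    refine sum_congr rfl (fun h _ => ?_)
    rw [sum_boole]
  rw [e1]
  calc ∑ h ∈ (Fintype.piFinset I).filter Function.Injective,
        (((Ioc 0 Y).filter (fun N => ∀ i, Rgh (x ^ a) (N + h i))).card : ℝ)
      ≤ ∑ h ∈ (Fintype.piFinset I).filter Function.Injective,
        C1 * Y * gf (dd h) ^ (2 * Fintype.card ι) / Real.log x ^ Fintype.card ι := by
        refine sum_le_sum (fun h hh => ?_)
        exact hx h (mem_filter.1 hh).2 Y hY
    _ = C1 * Y / Real.log x ^ Fintype.card ι *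
          ∑ h ∈ (Fintype.piFinset I).filter Function.Injective,
            gf (dd h) ^ (2 * Fintype.card ι) := by
        rw [mul_sum]
        refine sum_congr rfl (fun h _ => ?_)
        ring
    _ ≤ C1 * Y / Real.log x ^ Fintype.card ι * (C2 * ∏ k, ((I k).card : ℝ)) := by
        refine mul_le_mul_of_nonneg_left (hx2 I hI) ?_
        positivity
    _ = C1 * C2 * (∏ k, ((I k).card : ℝ)) / Real.log x ^ Fintype.card ι * Y := by
        ring

open Classical in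
private theorem card_le (ι : Type) [Fintype ι] [DecidableEq ι] (a x : ℝ) (L : ℕ) (I : ι → Finset ℕ) (N : ℕ) :
    (((RJ ι x a L N).filter (fun h => ∀ j, h j ∈ I j)).card : ℝ) ≤ bf ι a x I N := by
  have h2 : ((RJ ι x a L N).filter (fun h => ∀ j, h j ∈ I j)).card ≤
      ((Fintype.piFinset I).filter (fun h => Function.Injective h ∧
        ∀ i, Rgh (x ^ a) (N + h i))).card := by
    refine card_le_card fun h hh => ?_
    rw [mem_filter, mem_RJ] at hh
    rw [mem_filter, Fintype.mem_piFinset]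
    exact ⟨hh.2, hh.1.1.2, hh.1.2⟩
  unfold bf
  exact_mod_cast h2

/-- the head against a function with bounded averages -/
theorem gauss_head (x θ : ℝ) (hx0 : 0 < x) (hθ : 0 < θ) (hfl : Real.sqrt x ≤ (⌊θ * x⌋₊ : ℝ)) (F : ℕ → ℝ)
    (hF : ∀ N, 0 ≤ F N) (A0 : ℝ) (hA0 : 0 ≤ A0)
    (hY : ∀ Y : ℕ, Real.sqrt x ≤ (Y : ℝ) → ∑ N ∈ Ioc 0 Y, F N ≤ A0 * Y) :
    ∑ N ∈ (Tx x).filter (fun N : ℕ => (N : ℝ) ≤ θ * x), gw x N * F N ≤ A0 * (θ * x) := by
  calc ∑ N ∈ (Tx x).filter (fun N : ℕ => (N : ℝ) ≤ θ * x), gw x N * F N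
      ≤ ∑ N ∈ (Tx x).filter (fun N : ℕ => (N : ℝ) ≤ θ * x), F N := by
        refine sum_le_sum fun N _ => ?_
        refine mul_le_of_le_one_left (hF N) ?_
        unfold gw
        rw [Real.exp_le_one_iff]
        have := sq_nonneg (Real.log (N / x))
        linarith
    _ ≤ ∑ N ∈ Ioc 0 ⌊θ * x⌋₊, F N := by
        apply sum_le_sum_of_subset_of_nonneg
        · intro N hN
          rw [mem_filter] at hN
          have h2 := hN.1
          unfold Tx at h2
          rw [mem_Ioc] at h2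
          rw [mem_Ioc]
          exact ⟨by omega, Nat.le_floor hN.2⟩
        · exact fun _ _ _ => hF _
    _ ≤ A0 * (⌊θ * x⌋₊ : ℝ) := hY _ hfl
    _ ≤ A0 * (θ * x) := mul_le_mul_of_nonneg_left (Nat.floor_le (by positivity)) hA0

/-- the tail against a function with bounded averages -/
theorem gauss_tail (x T : ℝ) (hx4 : 4 ≤ x) (hT : 1 ≤ T) (F : ℕ → ℝ) (hF : ∀ N, 0 ≤ F N) (A0 : ℝ) (hA0 : 0 ≤ A0)
    (hY : ∀ Y : ℕ, Real.sqrt x ≤ (Y : ℝ) → ∑ N ∈ Ioc 0 Y, F N ≤ A0 * Y) :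
    ∑ N ∈ (Tx x).filter (fun N : ℕ => T * x < (N : ℝ)), gw x N * F N ≤ 4 * Real.exp (9 / 2) * A0 * x / T := by
  classical
  have hx0 : 0 < x := by linarith
  have hT0 : 0 < T := by linarith
  obtain ⟨z, hz⟩ : ∃ z : ℝ, z = T * x := ⟨_, rfl⟩
  have hz0 : 0 < z := by rw [hz]; positivity
  have hzx : x ≤ z := by rw [hz]; nlinarith
  have hfl : Real.sqrt x ≤ (⌊z⌋₊ : ℝ) := by
    have h1 := Nat.lt_floor_add_one z
    have h2 : 2 ≤ Real.sqrt x := by
      rw [show (2 : ℝ) = Real.sqrt 4 by rw [show (4 : ℝ) = 2 ^ 2 by norm_num, Real.sqrt_sq (by norm_num)]]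
      exact Real.sqrt_le_sqrt hx4
    have h3 := Real.mul_self_sqrt hx0.le
    nlinarith
  obtain ⟨A, hA⟩ : ∃ A : Finset ℕ, A = (Tx x).filter (fun N : ℕ => T * x < (N : ℝ)) := ⟨_, rfl⟩
  rw [← hA]
  obtain ⟨j, hj⟩ : ∃ j : ℕ → ℕ, j = fun N : ℕ => Nat.log 2 ⌊(N : ℝ) / z⌋₊ := ⟨_, rfl⟩
  have hjN : ∀ N ∈ A, (2 : ℝ) ^ j N * z ≤ N ∧ (N : ℝ) < 2 ^ (j N + 1) * z := by
    intro N hN
    rw [hA, mem_filter, ← hz] at hN
    have h1 : 1 ≤ (N : ℝ) / z := by
      rw [le_div_iff₀ hz0, one_mul]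
      exact hN.2.le
    have h2 : 1 ≤ ⌊(N : ℝ) / z⌋₊ := Nat.le_floor (by exact_mod_cast h1)
    have h3 := Nat.pow_log_le_self 2 (x := ⌊(N : ℝ) / z⌋₊) (by omega)
    have h4 := Nat.lt_pow_succ_log_self (b := 2) (by norm_num) ⌊(N : ℝ) / z⌋₊
    have h5 : j N = Nat.log 2 ⌊(N : ℝ) / z⌋₊ := by rw [hj]
    rw [← h5] at h3 h4
    constructor
    · have h6 : ((2 ^ j N : ℕ) : ℝ) ≤ (⌊(N : ℝ) / z⌋₊ : ℝ) := by exact_mod_cast h3
      have h7 := Nat.floor_le (show (0 : ℝ) ≤ (N : ℝ) / z by positivity)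
      rw [← le_div_iff₀ hz0]
      push_cast at h6
      linarith
    · have h6 : (⌊(N : ℝ) / z⌋₊ : ℝ) + 1 ≤ ((2 ^ (j N).succ : ℕ) : ℝ) := by exact_mod_cast h4
      have h7 := Nat.lt_floor_add_one ((N : ℝ) / z)
      rw [← div_lt_iff₀ hz0]
      push_cast at h6
      rw [Nat.succ_eq_add_one] at h6
      linarith
  rw [← sum_fiberwise_of_maps_to (s := A) (t := A.image j) (g := j) (fun N hN => mem_image_of_mem j hN)]
  have hpiece : ∀ i ∈ A.image j, ∑ N ∈ A.filter (fun N => j N = i), gw x N * F N ≤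
      2 * Real.exp (9 / 2) * A0 * x / T * (1 / 4) ^ i := by
    intro i _
    have h1 : ∀ N ∈ A.filter (fun N => j N = i), gw x N * F N ≤
        Real.exp (9 / 2) * (1 / (2 ^ i * T)) ^ 3 * F N := by
      intro N hN
      rw [mem_filter] at hN
      have h2 := (hjN N hN.1).1
      rw [hN.2] at h2
      have hN0 : (0 : ℝ) < N := lt_of_lt_of_le (by positivity) h2
      have hN1 : 1 ≤ N := by exact_mod_cast hN0
      refine mul_le_mul_of_nonneg_right ((gw_le_cube hx0 hN1).trans ?_) (hF N)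
      refine mul_le_mul_of_nonneg_left ?_ (Real.exp_pos _).le
      refine pow_le_pow_left₀ (by positivity) ?_ 3
      rw [div_le_div_iff₀ hN0 (by positivity), one_mul]
      calc x * (2 ^ i * T) = 2 ^ i * z := by rw [hz]; ring
        _ ≤ N := h2
    refine (sum_le_sum h1).trans ?_
    rw [← mul_sum]
    obtain ⟨Y, hYd⟩ : ∃ Y : ℕ, Y = ⌊2 ^ (i + 1) * z⌋₊ := ⟨_, rfl⟩
    have hYle : (Y : ℝ) ≤ 2 ^ (i + 1) * z := by
      rw [hYd]
      exact Nat.floor_le (by positivity)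
    have h2i : (1 : ℝ) ≤ 2 ^ (i + 1) := one_le_pow₀ (by norm_num)
    have hYge : Real.sqrt x ≤ Y := by
      refine hfl.trans ?_
      rw [hYd]
      have : ⌊z⌋₊ ≤ ⌊2 ^ (i + 1) * z⌋₊ := Nat.floor_le_floor (le_mul_of_one_le_left hz0.le h2i)
      exact_mod_cast this
    have h3 : ∑ N ∈ A.filter (fun N => j N = i), F N ≤ ∑ N ∈ Ioc 0 Y, F N := by
      apply sum_le_sum_of_subset_of_nonneg
      · intro N hN
        rw [mem_filter] at hN
        have h4 := hjN N hN.1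
        rw [hN.2] at h4
        have hN0 : (0 : ℝ) < N := lt_of_lt_of_le (by positivity) h4.1
        have hN1 : 0 < N := by exact_mod_cast hN0
        rw [mem_Ioc]
        refine ⟨hN1, ?_⟩
        rw [hYd]
        exact Nat.le_floor h4.2.le
      · exact fun _ _ _ => hF _
    have h4 := (h3.trans (hY Y hYge)).trans (mul_le_mul_of_nonneg_left hYle hA0)
    have h5 := mul_le_mul_of_nonneg_left h4
      (show (0 : ℝ) ≤ Real.exp (9 / 2) * (1 / (2 ^ i * T)) ^ 3 by positivity)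
    refine h5.trans ?_
    have h7 : (2 : ℝ) ^ (i + 1) = 2 * 2 ^ i := by ring
    have h8 : (1 / 4 : ℝ) ^ i = 1 / ((2 : ℝ) ^ i) ^ 2 := by
      rw [one_div_pow, ← pow_mul, mul_comm i 2, pow_mul]
      norm_num
    have h9 : Real.exp (9 / 2) * (1 / (2 ^ i * T)) ^ 3 * (A0 * (2 ^ (i + 1) * z)) =
        2 * Real.exp (9 / 2) * A0 * x / T * (1 / 4) ^ i * (1 / T) := by
      rw [h7, h8, hz]
      field_simp
    rw [h9]
    refine mul_le_of_le_one_right (by positivity) ?_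
    rw [div_le_one hT0]
    exact hT
  refine (sum_le_sum hpiece).trans ?_
  rw [← mul_sum]
  have hsum : ∑ i ∈ A.image j, (1 / 4 : ℝ) ^ i ≤ 2 := by
    have h1 : Summable (fun i : ℕ => (1 / 4 : ℝ) ^ i) := summable_geometric_of_lt_one (by norm_num) (by norm_num)
    have h2 := h1.sum_le_tsum (A.image j) (fun i _ => by positivity)
    rw [tsum_geometric_of_lt_one (by norm_num) (by norm_num)] at h2
    refine h2.trans ?_
    norm_num
  have h1 : (0 : ℝ) ≤ 2 * Real.exp (9 / 2) * A0 * x / T := by positivity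
  refine (mul_le_mul_of_nonneg_left hsum h1).trans (le_of_eq ?_)
  ring

open Classical in
/-- **all families in the box** -/
theorem totalBU (ι : Type) [Fintype ι] [DecidableEq ι] [Nonempty ι] (a : ℝ) (ha : 0 < a) :
    ∃ (C : ℝ) (κ : ℕ), 0 < C ∧ ∀ᶠ x : ℝ in atTop, ∀ b P : ℝ, 3 ≤ P → 1 ≤ b → Real.log P ^ κ ≤ b →
      ∀ (L : ℕ) (I : ι → Finset ℕ), BoxU b P I →
      ∑ N ∈ Tx x, gw x N * (((RJ ι x a L N).filter (fun h => ∀ j, h j ∈ I j)).card : ℝ) ≤
        C * x * (∏ k, ((I k).card : ℝ)) / Real.log x ^ Fintype.card ι := by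
  obtain ⟨C, κ, hC, hm⟩ := mom_boxU ι a ha
  refine ⟨(4 * Real.exp (9 / 2) + 1) * C, κ, by positivity, ?_⟩
  filter_upwards [hm, eventually_ge_atTop (4 : ℝ)] with x hx hx4 b P hP _ hb L I hI
  have hlog : 0 < Real.log x := Real.log_pos (by linarith)
  have h1 := Pool.Agent.H79.LS.gauss_gen x hx4 (bf ι a x I) (fun N => Nat.cast_nonneg _)
    (C * (∏ k, ((I k).card : ℝ)) / Real.log x ^ Fintype.card ι) (by positivity) (hx b P hP hb I hI)
  refine le_trans (sum_le_sum fun N _ => ?_) (h1.trans (le_of_eq (by ring)))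
  exact mul_le_mul_of_nonneg_left (card_le ι a x L I N) (gw_pos x N).le

open Classical in
/-- **the beginning** -/
theorem headBU (ι : Type) [Fintype ι] [DecidableEq ι] [Nonempty ι] (a : ℝ) (ha : 0 < a) :
    ∃ (C : ℝ) (κ : ℕ), 0 < C ∧ ∀ θ : ℝ, 0 < θ → ∀ᶠ x : ℝ in atTop, ∀ b P : ℝ, 3 ≤ P → 1 ≤ b →
      Real.log P ^ κ ≤ b → ∀ (L : ℕ) (I : ι → Finset ℕ), BoxU b P I →
      ∑ N ∈ (Tx x).filter (fun N : ℕ => (N : ℝ) ≤ θ * x), gw x N *
          (((RJ ι x a L N).filter (fun h => ∀ j, h j ∈ I j)).card : ℝ) ≤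
        C * θ * x * (∏ k, ((I k).card : ℝ)) / Real.log x ^ Fintype.card ι := by
  obtain ⟨C, κ, hC, hm⟩ := mom_boxU ι a ha
  refine ⟨C, κ, hC, fun θ hθ => ?_⟩
  filter_upwards [hm, eventually_gt_atTop (1 : ℝ), eventually_ge_atTop ((2 / θ) ^ 2)]
    with x hx hx1 hx2 b P hP _ hb L I hI
  have hx0 : 0 < x := by linarith
  have hlog : 0 < Real.log x := Real.log_pos hx1
  have hs : 2 / θ ≤ Real.sqrt x := Real.le_sqrt_of_sq_le hx2
  have hs1 : 1 ≤ Real.sqrt x := by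
    rw [Real.one_le_sqrt]
    exact hx1.le
  have hss := Real.mul_self_sqrt hx0.le
  have hθx : 2 * Real.sqrt x ≤ θ * x := by
    rw [div_le_iff₀ hθ] at hs
    have h3 := mul_le_mul_of_nonneg_right hs (Real.sqrt_nonneg x)
    calc 2 * Real.sqrt x ≤ Real.sqrt x * θ * Real.sqrt x := h3
      _ = θ * (Real.sqrt x * Real.sqrt x) := by ring
      _ = θ * x := by rw [hss]
  have hfl : Real.sqrt x ≤ (⌊θ * x⌋₊ : ℝ) := by
    have h1 := Nat.lt_floor_add_one (θ * x)
    linarith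
  have h1 := gauss_head x θ hx0 hθ hfl (bf ι a x I) (fun N => Nat.cast_nonneg _)
    (C * (∏ k, ((I k).card : ℝ)) / Real.log x ^ Fintype.card ι) (by positivity) (hx b P hP hb I hI)
  refine le_trans (sum_le_sum fun N _ => ?_) (h1.trans (le_of_eq (by ring)))
  exact mul_le_mul_of_nonneg_left (card_le ι a x L I N) (gw_pos x N).le

open Classical in
/-- **the end** -/
theorem tailBU (ι : Type) [Fintype ι] [DecidableEq ι] [Nonempty ι] (a : ℝ) (ha : 0 < a) :
    ∃ (C : ℝ) (κ : ℕ), 0 < C ∧ ∀ T : ℝ, 1 ≤ T → ∀ᶠ x : ℝ in atTop, ∀ b P : ℝ, 3 ≤ P → 1 ≤ b →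
      Real.log P ^ κ ≤ b → ∀ (L : ℕ) (I : ι → Finset ℕ), BoxU b P I →
      ∑ N ∈ (Tx x).filter (fun N : ℕ => T * x < (N : ℝ)), gw x N *
          (((RJ ι x a L N).filter (fun h => ∀ j, h j ∈ I j)).card : ℝ) ≤
        C / T * x * (∏ k, ((I k).card : ℝ)) / Real.log x ^ Fintype.card ι := by
  obtain ⟨C, κ, hC, hm⟩ := mom_boxU ι a ha
  refine ⟨4 * Real.exp (9 / 2) * C, κ, by positivity, fun T hT => ?_⟩
  filter_upwards [hm, eventually_ge_atTop (4 : ℝ)] with x hx hx4 b P hP _ hb L I hI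
  have hlog : 0 < Real.log x := Real.log_pos (by linarith)
  have h1 := gauss_tail x T hx4 hT (bf ι a x I) (fun N => Nat.cast_nonneg _)
    (C * (∏ k, ((I k).card : ℝ)) / Real.log x ^ Fintype.card ι) (by positivity) (hx b P hP hb I hI)
  refine le_trans (sum_le_sum fun N _ => ?_) (h1.trans (le_of_eq (by ring)))
  exact mul_le_mul_of_nonneg_left (card_le ι a x L I N) (gw_pos x N).le

end Pool.Agent.H79.AU
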